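import Mathlib
import Pool.Agent.TDS.Final

/-! A power saving for the number of squares with at most two distinct decimal digits. -/

/-- The number of `k ≤ X` such that `k ^ 2` has at most two distinct decimal digits is
`O (X ^ (11 / 42))`. -/
theorem Pool.Agent.Results.MP_a5edac_nt.PowerSaving.result :
    ∃ C : ℝ, ∀ X : ℕ,
      (((Finset.Icc 1 X).filter (fun k => (Nat.digits 10 (k ^ 2)).toFinset.card ≤ 2)).card : ℝ) ≤
        C * (X : ℝ) ^ (11 / 42 : ℝ) :=
  ⟨33 * 10 ^ 9, Pool.Agent.TDS.main⟩
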